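import Mathlib

/-!
# Semisimple endomorphisms: tensor products, sums, summands, roots
-/

open Polynomial

namespace Pool.Agent.Q226.SF

variable {K : Type*} [Field K]

section
variable {A B C : Type*} [AddCommGroup A] [Module K A] [AddCommGroup B] [Module K B]
  [AddCommGroup C] [Module K C]

/-- polynomials in endomorphisms which are intertwined by a linear map -/
lemma aeval_inter {F : Module.End K A} {G : Module.End K B} (e : A →ₗ[K] B)
    (h : ∀ x, e (F x) = G (e x)) (P : K[X]) (x : A) :
    aeval G P (e x) = e (aeval F P x) := by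
  induction P using Polynomial.induction_on' with
  | add p q hp hq => simp [hp, hq]
  | monomial n a =>
    have key : ∀ n : ℕ, ∀ x, (G ^ n) (e x) = e ((F ^ n) x) := by
      intro n
      induction n with
      | zero => intro x; simp
      | succ n ih => intro x; rw [pow_succ, pow_succ]; simp [ih, ← h]
    simp [aeval_monomial, key]

/-- two squarefree polynomials divide a third one -/
lemma common {P Q : K[X]} (hP : Squarefree P) (hQ : Squarefree Q) :
    ∃ R : K[X], Squarefree R ∧ P ∣ R ∧ Q ∣ R := by
  classical
  have h0 : P * Q ≠ 0 := mul_ne_zero hP.ne_zero hQ.ne_zero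
  exact ⟨UniqueFactorizationMonoid.radical (P * Q),
    UniqueFactorizationMonoid.squarefree_radical,
    (UniqueFactorizationMonoid.dvd_radical_iff hP.isRadical h0).2 (dvd_mul_right _ _),
    (UniqueFactorizationMonoid.dvd_radical_iff hQ.isRadical h0).2 (dvd_mul_left _ _)⟩

lemma aeval_dvd {F : Module.End K A} {P R : K[X]} (h : P ∣ R) (hP : aeval F P = 0) :
    aeval F R = 0 := by
  obtain ⟨Q, rfl⟩ := h
  rw [map_mul, hP, zero_mul]

/-- direct summands of sums of two semisimple endomorphisms are semisimple -/
lemma semisimple_split [FiniteDimensional K B] [FiniteDimensional K C]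
    {F : Module.End K A} {G : Module.End K B} {G' : Module.End K C}
    (i : A →ₗ[K] B) (r : B →ₗ[K] A) (i' : A →ₗ[K] C) (r' : C →ₗ[K] A)
    (h : ∀ x, r (i x) + r' (i' x) = x) (hi : ∀ x, i (F x) = G (i x))
    (hi' : ∀ x, i' (F x) = G' (i' x)) (hG : G.IsSemisimple) (hG' : G'.IsSemisimple) :
    F.IsSemisimple := by
  obtain ⟨R, hR, h1, h2⟩ := common hG.minpoly_squarefree hG'.minpoly_squarefree
  refine Module.End.isSemisimple_of_squarefree_aeval_eq_zero hR ?_
  ext x
  rw [← h (aeval F R x), ← aeval_inter i hi, ← aeval_inter i' hi',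
    aeval_dvd h1 (minpoly.aeval _ _), aeval_dvd h2 (minpoly.aeval _ _)]
  simp

lemma semisimple_inj [FiniteDimensional K B] {F : Module.End K A} {G : Module.End K B}
    (i : A →ₗ[K] B) (hinj : Function.Injective i) (hi : ∀ x, i (F x) = G (i x))
    (hG : G.IsSemisimple) : F.IsSemisimple := by
  refine Module.End.isSemisimple_of_squarefree_aeval_eq_zero hG.minpoly_squarefree ?_
  ext x
  apply hinj
  rw [← aeval_inter i hi, minpoly.aeval]
  simp

/-- an endomorphism of a finite sum of images -/
lemma semisimple_sum {ι : Type*} (S : Finset ι) (V : ι → Type*) [∀ r, AddCommGroup (V r)]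
    [∀ r, Module K (V r)] [∀ r, FiniteDimensional K (V r)] (F : ∀ r, Module.End K (V r))
    (G : Module.End K A) (i : ∀ r, V r →ₗ[K] A) (hi : ∀ r x, i r (F r x) = G (i r x))
    (hF : ∀ r ∈ S, (F r).IsSemisimple) (h : ∀ x : A, ∃ y : ∀ r, V r, x = ∑ r ∈ S, i r (y r)) :
    G.IsSemisimple := by
  have key : ∃ R : K[X], Squarefree R ∧ ∀ r ∈ S, minpoly K (F r) ∣ R := by
    classical
    clear h
    induction S using Finset.induction_on with
    | empty => exact ⟨1, squarefree_one, by simp⟩
    | insert a S ha ih =>
      obtain ⟨R, hR, h⟩ := ih (fun r hr => hF r (Finset.mem_insert_of_mem hr))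
      obtain ⟨R', hR', h1, h2⟩ :=
        common hR (hF a (Finset.mem_insert_self _ _)).minpoly_squarefree
      refine ⟨R', hR', fun r hr => ?_⟩
      rcases Finset.mem_insert.1 hr with rfl | hr
      · exact h2
      · exact (h r hr).trans h1
  obtain ⟨R, hR, hd⟩ := key
  refine Module.End.isSemisimple_of_squarefree_aeval_eq_zero hR ?_
  ext x
  obtain ⟨y, rfl⟩ := h x
  rw [map_sum, LinearMap.zero_apply]
  refine Finset.sum_eq_zero fun r hr => ?_
  rw [aeval_inter (i r) (hi r), aeval_dvd (hd r hr) (minpoly.aeval _ _)]
  simp

/-- the tensor product of semisimple endomorphisms -/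
lemma semisimple_tensor [PerfectField K] [FiniteDimensional K A] [FiniteDimensional K B]
    {F : Module.End K A} {G : Module.End K B} (hF : F.IsSemisimple) (hG : G.IsSemisimple) :
    Module.End.IsSemisimple (TensorProduct.map F G) := by
  have h1 : Module.End.IsSemisimple (TensorProduct.map F (LinearMap.id : B →ₗ[K] B)) := by
    refine Module.End.isSemisimple_of_squarefree_aeval_eq_zero hF.minpoly_squarefree ?_
    ext x y
    have := aeval_inter (F := F) (G := TensorProduct.map F LinearMap.id)
      ((TensorProduct.mk K A B).flip y) (fun x => by simp) (minpoly K F) x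
    simpa [minpoly.aeval] using this
  have h2 : Module.End.IsSemisimple (TensorProduct.map (LinearMap.id : A →ₗ[K] A) G) := by
    refine Module.End.isSemisimple_of_squarefree_aeval_eq_zero hG.minpoly_squarefree ?_
    ext x y
    have := aeval_inter (F := G) (G := TensorProduct.map LinearMap.id G)
      (TensorProduct.mk K A B x) (fun x => by simp) (minpoly K G) y
    simpa [minpoly.aeval] using this
  have e : (TensorProduct.map F G : Module.End K (TensorProduct K A B)) =
      TensorProduct.map F LinearMap.id * TensorProduct.map LinearMap.id G := by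
    ext x y; simp
  rw [e]
  refine Module.End.IsSemisimple.mul_of_commute ?_ h1 h2
  ext x y
  simp

end

/-- an injective endomorphism with a semisimple power is semisimple -/
lemma semisimple_root [CharZero K] {A : Type*} [AddCommGroup A] [Module K A]
    [FiniteDimensional K A] {F : Module.End K A} (hinj : Function.Injective F) {s : ℕ}
    (hs : 0 < s) (h : (F ^ s).IsSemisimple) : F.IsSemisimple := by
  rcases subsingleton_or_nontrivial A with hA | hA
  · exact Module.End.isSemisimple_of_squarefree_aeval_eq_zero (p := 1) squarefree_one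
      (by ext x; exact Subsingleton.elim _ _)
  set P := minpoly K (F ^ s) with hPdef
  have hP : P.Separable := PerfectField.separable_iff_squarefree.2 h.minpoly_squarefree
  have hP0 : P.coeff 0 ≠ 0 := by
    intro h0
    obtain ⟨Q, hQ⟩ := X_dvd_iff.2 h0
    have hne : P ≠ 0 := minpoly.ne_zero (Algebra.IsIntegral.isIntegral _)
    have hQ0 : Q ≠ 0 := by rintro rfl; exact hne (by rw [hQ, mul_zero])
    have h1 : aeval (F ^ s) Q = 0 := by
      ext x
      have h2 : (F ^ s) (aeval (F ^ s) Q x) = 0 := by
        have := LinearMap.congr_fun (minpoly.aeval K (F ^ s)) x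
        rw [← hPdef, hQ, map_mul, aeval_X] at this
        simpa using this
      have h3 : Function.Injective (F ^ s) := by
        rw [Module.End.coe_pow]; exact hinj.iterate s
      exact h3 (by rw [h2]; simp)
    have h4 := minpoly.degree_le_of_ne_zero K (F ^ s) hQ0 h1
    have h5 : P.natDegree = Q.natDegree + 1 := by
      rw [hQ, natDegree_mul X_ne_zero hQ0, natDegree_X, add_comm]
    have h6 := natDegree_le_natDegree h4
    rw [← hPdef, h5] at h6
    omega
  have hsep : (expand K s P).Separable := by
    rw [separable_def, derivative_expand]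
    refine IsCoprime.mul_right ?_ ?_
    · exact IsCoprime.map hP (expand K s : K[X] →ₐ[K] K[X]).toRingHom
    · refine IsCoprime.mul_right ?_ ?_
      · have : IsUnit ((s : K[X])) := by
          have h1 : IsUnit (C (s : K)) := isUnit_C.2 (isUnit_iff_ne_zero.2 (by exact_mod_cast hs.ne'))
          simpa using h1
        obtain ⟨u, hu⟩ := this
        exact ⟨0, (↑u⁻¹ : K[X]), by rw [← hu]; simp⟩
      · refine IsCoprime.pow_right ?_
        refine IsCoprime.symm ?_
        rw [(irreducible_X (R := K)).coprime_iff_not_dvd, X_dvd_iff, coeff_zero_eq_eval_zero,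
          expand_eval, zero_pow hs.ne', ← coeff_zero_eq_eval_zero]
        exact hP0
  refine Module.End.isSemisimple_of_squarefree_aeval_eq_zero hsep.squarefree ?_
  rw [expand_aeval]
  exact minpoly.aeval _ _

end Pool.Agent.Q226.SF
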