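import Pool.Agent.Q28.HJ.GDefs
import Pool.Agent.Q28.HJ.Small

/-!
# Frobenius on the cohomology of sums of forms over finite fields: definitions
-/

open CategoryTheory MonoidalCategory TensorProduct

universe v u w

namespace Pool.Agent.Q226.SF

open Pool.Agent.Q28.HJ

/-- Let `k'` be an algebraic closure of the field with `p` elements and `K` the field of `ℓ`-adic
numbers, `ℓ ≠ p`. The category `𝓜` of motives over `k'` for homological equivalence (`ℓ`-adic
cohomology), with the smooth hypersurfaces over `k'` of degree prime to `p` (`JoinData`), and the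
varieties over finite fields. -/
structure FrobData (𝓜 : Type u) [Category.{v} 𝓜] (K : Type) [Field K]
    extends JoinData.{v, u, w} 𝓜 where
  /-- the characteristic of the base fields -/
  p : ℕ
  /-- the total cohomology `H^*(M)` of a motive over `k'` -/
  H : 𝓜 → Type
  [hgrp : ∀ M, AddCommGroup (H M)]
  [hmod : ∀ M, Module K (H M)]
  [hfin : ∀ M, FiniteDimensional K (H M)]
  /-- the action of morphisms on cohomology -/
  map : ∀ {M N : 𝓜}, (M ⟶ N) → H M →ₗ[K] H N
  /-- For a model of `M` over a finite subfield of `k'` (chosen for each `M`) and for all large `s`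
  for divisibility, `Fr M s` is the Frobenius over the field with `p ^ s` elements on `H^*(M)`. -/
  Fr : ∀ M : 𝓜, ℕ → Module.End K (H M)
  /-- the motive of a smooth hypersurface -/
  hmot : Hyp → 𝓜
  /-- the smooth projective varieties over finite fields `k = k(V)` of characteristic `p` -/
  Var : Type w
  /-- the number of elements of the base field `k` of `V` is `p ^ (deg V)` -/
  degree : Var → ℕ
  /-- the motive over `k'` of `V ⊗ k'` -/
  mot : Var → 𝓜
  /-- `H^r(V ⊗ k')` -/
  coh : Var → ℕ → Type
  [cgrp : ∀ V r, AddCommGroup (coh V r)]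
  [cmod : ∀ V r, Module K (coh V r)]
  [cfin : ∀ V r, FiniteDimensional K (coh V r)]
  /-- the Frobenius `F` of `V` over `k` on `H^r(V ⊗ k')` -/
  F : ∀ V r, Module.End K (coh V r)
  /-- the inclusion of `H^r(V ⊗ k')` in `H^*(V ⊗ k')` -/
  incl : ∀ V r, coh V r →ₗ[K] H (mot V)

attribute [instance] FrobData.hgrp FrobData.hmod FrobData.hfin FrobData.cgrp FrobData.cmod
  FrobData.cfin

namespace FrobData

variable {𝓜 : Type u} [Category.{v} 𝓜] {K : Type} [Field K] (T : FrobData.{v, u, w} 𝓜 K)

/-- A property of natural numbers `s` holds for all `s > 0` divisible by some `t > 0`. -/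
def Large (P : ℕ → Prop) : Prop := ∃ t : ℕ, 0 < t ∧ ∀ s, 0 < s → t ∣ s → P s

/-- The motive `M` over `k'` has semisimple Frobenius: the Frobenius of `M` over the field with
`p ^ s` elements is semisimple on `H^*(M)`, for all large `s` for divisibility. -/
def Semisimple (M : 𝓜) : Prop := Large fun s => (T.Fr M s).IsSemisimple

/-- Frobenius acts semisimply on `H^r(V ⊗ k')` for all `r`. -/
def FrobeniusSemisimple (V : T.Var) : Prop := ∀ r, (T.F V r).IsSemisimple

variable [Preadditive 𝓜] [MonoidalCategory 𝓜]

/-- Cohomology is an additive functor. -/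
structure Functorial : Prop where
  map_id : ∀ (M : 𝓜) (x : T.H M), T.map (𝟙 M) x = x
  map_add : ∀ {M N : 𝓜} (f g : M ⟶ N) (x : T.H M), T.map (f + g) x = T.map f x + T.map g x
  map_comp : ∀ {M N O : 𝓜} (f : M ⟶ N) (g : N ⟶ O) (x : T.H M),
    T.map (f ≫ g) x = T.map g (T.map f x)

/-- The action of `f` on cohomology commutes with the Frobenius over the field with `p ^ s`
elements, for all large `s` for divisibility. -/
def CommutesWithFrobenius {M N : 𝓜} (f : M ⟶ N) : Prop :=
  Large fun s => ∀ x : T.H M, T.map f (T.Fr M s x) = T.Fr N s (T.map f x)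

/-- The formula of Kuenneth `H^*(M ⊗ N) = H^*(M) ⊗ H^*(N)`, compatible with Frobenius. -/
def Kuenneth (M N : 𝓜) : Prop :=
  ∃ e : T.H M ⊗[K] T.H N ≃ₗ[K] T.H (M ⊗ N), Large fun s => ∀ (x : T.H M) (y : T.H N),
    e (T.Fr M s x ⊗ₜ T.Fr N s y) = T.Fr (M ⊗ N) s (e (x ⊗ₜ y))

/-- The Frobenius over the field with `p ^ s` elements is the multiplication by `c ^ s` on `H^*(M)`,
for all large `s` for divisibility. -/
def FrobeniusScalar (M : 𝓜) (c : K) : Prop :=
  Large fun s => ∀ x : T.H M, T.Fr M s x = c ^ s • x

/-- Elementary facts on cohomology.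
* `func`: cohomology is an additive functor. `frob_map`: the elements of `Hom(M, N)` are defined over
  finite fields, so that they commute with Frobenius. `tensor`: the formula of Kuenneth.
* `unit`, `lef`: Frobenius is trivial on `H^*(1)`, and the multiplication by `p ^ s` on `H^*(L)`
  over the field with `p ^ s` elements; `lef_ne`: `H^*(L)` is not zero. -/
structure CohFacts : Prop where
  prime : T.p.Prime
  func : T.Functorial
  frob_map : ∀ {M N : 𝓜} (f : M ⟶ N), T.CommutesWithFrobenius f
  tensor : ∀ M N : 𝓜, T.Kuenneth M N
  unit : T.FrobeniusScalar (𝟙_ 𝓜) 1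
  lef : T.FrobeniusScalar T.L T.p
  lef_ne : ∃ b : T.H T.L, b ≠ 0

/-- Elementary facts on varieties over finite fields.
* `inj`, `sum`: `H^*(V ⊗ k')` is the sum of the `H^r(V ⊗ k')`.
* `frob_inj`: the Frobenius `F` is invertible on `H^r(V ⊗ k')`. -/
structure CohSum (V : T.Var) : Prop where
  inj : ∀ r : ℕ, Function.Injective (T.incl V r)
  sum : ∃ n : ℕ, ∀ x : T.H (T.mot V), ∃ y : ∀ r, T.coh V r,
    x = ∑ r ∈ Finset.range n, T.incl V r (y r)
  frob_inj : ∀ r : ℕ, Function.Injective (T.F V r)

/-- The Frobenius over the extension of degree `s` of the base field `k` of `V` is the power `F ^ s`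
of the Frobenius `F` over `k`. -/
def FrobeniusPowers (V : T.Var) : Prop :=
  Large fun s => ∀ (r : ℕ) (x : T.coh V r),
    T.incl V r ((T.F V r ^ s) x) = T.Fr (T.mot V) (T.degree V * s) (T.incl V r x)

/-- Elementary facts on varieties over finite fields: the degree of `k` over the prime field is
positive, `H^*` is the sum of the `H^r`, and powers of Frobenius. -/
structure VarFacts : Prop where
  degree_pos : ∀ V : T.Var, 0 < T.degree V
  coh : ∀ V : T.Var, T.CohSum V
  frob_pow : ∀ V : T.Var, T.FrobeniusPowers V

/-- Known facts.
* `core`: sums of forms (Shioda, Katsura).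
* `coh`, `var`: elementary facts on cohomology and varieties.
* `hyp`: the motive of a smooth hypersurface `X` is the direct sum of the primitive motive `M_X` and
  of powers of the Lefschetz motive.
* `small`: Frobenius is semisimple on the primitive cohomology of the smooth hypersurfaces of
  dimension at most one (Weil), of the smooth cubic hypersurfaces of dimension at most five, and of
  the smooth quartic hypersurfaces of dimension at most three. Here cubic surfaces are rational;
  cubic threefolds, cubic fivefolds and quartic threefolds have Hodge level one, and their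
  cohomology is that of an abelian variety (Deligne, Les intersections completes de niveau de Hodge
  un); for quartic surfaces and cubic fourfolds: Deligne, La conjecture de Weil pour les surfaces K3,
  and the complement of Rapoport to this article. The characteristic `p` is at least five. -/
structure Facts : Prop where
  core : T.CoreFacts
  coh : T.CohFacts
  var : T.VarFacts
  hyp : ∀ X : T.Hyp, T.Smooth X → GenBy T.L (fun N => N = T.prim X) (T.hmot X)
  small : ∀ X : T.Hyp, T.Smooth X →
    (T.dim X ≤ 1 ∨ T.deg X = 3 ∧ T.dim X ≤ 5 ∨ T.deg X = 4 ∧ T.dim X ≤ 3) →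
      T.Semisimple (T.prim X)

/-- The blocks `B_d`: the smooth hypersurfaces `X : f(x) = 0` of degree `d` such that Frobenius is
semisimple on the primitive cohomology of `X` and of `X' : f(x) = u ^ d`. -/
def goodForms (d : ℕ) : Set T.Hyp :=
  {X | T.Smooth X ∧ T.deg X = d ∧ T.Semisimple (T.prim X) ∧
    ∀ X', T.Cyc X X' → T.Semisimple (T.prim X')}

/-- `W` is a smooth hypersurface of degree `d ≥ 2` given by a sum `f_1 + ... + f_r`, in disjoint sets
of variables, of forms in `goodForms d`, or of such forms minus `u ^ d`, `u` a further variable. The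
number of summands is arbitrary. -/
def IsGoodSum (W : T.Hyp) : Prop := ∃ d, 2 ≤ d ∧ T.SumOf (T.blocks (T.goodForms d)) W

/-- The motives generated by motives with semisimple Frobenius and by the hypersurfaces which are
sums of good forms, by tensor products (products of varieties), direct sums, direct summands and
Tate twists. -/
def Generated (M : 𝓜) : Prop :=
  GenBy T.L (fun N => (∃ V, T.FrobeniusSemisimple V ∧ N = T.mot V) ∨
    ∃ W, T.IsGoodSum W ∧ N = T.hmot W) M

end FrobData

end Pool.Agent.Q226.SF
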