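import Pool.Agent.Q226.SF.Defs
import Pool.Agent.Q226.SF.Lin

/-!
# Frobenius on the cohomology of sums of forms over finite fields
-/

open CategoryTheory MonoidalCategory TensorProduct

universe v u w

set_option linter.unusedSectionVars false

namespace Pool.Agent.Q226.SF

open Pool.Agent.Q28.HJ

namespace FrobData

lemma Large.and {P Q : ℕ → Prop} (h : Large P) (h' : Large Q) : Large fun s => P s ∧ Q s := by
  obtain ⟨t, ht, h⟩ := h
  obtain ⟨t', ht', h'⟩ := h'
  exact ⟨t * t', Nat.mul_pos ht ht', fun s hs hd =>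
    ⟨h s hs ((Dvd.intro _ rfl).trans hd), h' s hs ((Dvd.intro_left _ rfl).trans hd)⟩⟩

lemma Large.mono {P Q : ℕ → Prop} (h : Large P) (hPQ : ∀ s, P s → Q s) : Large Q := by
  obtain ⟨t, ht, h⟩ := h
  exact ⟨t, ht, fun s hs hd => hPQ s (h s hs hd)⟩

lemma Large.mul {P : ℕ → Prop} (h : Large P) (m : ℕ) (hm : 0 < m) : Large fun s => P (m * s) := by
  obtain ⟨t, ht, h⟩ := h
  exact ⟨t, ht, fun s hs hd => h _ (Nat.mul_pos hm hs) (hd.trans (Dvd.intro_left _ rfl))⟩

lemma Large.of_mul {P : ℕ → Prop} (m : ℕ) (hm : 0 < m) (h : Large fun s => P (m * s)) :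
    Large P := by
  obtain ⟨t, ht, h⟩ := h
  refine ⟨m * t, Nat.mul_pos hm ht, fun s hs hd => ?_⟩
  obtain ⟨c, rfl⟩ := hd
  have h2 := h (t * c) (Nat.pos_of_ne_zero fun e => by simp [mul_assoc, e] at hs)
    (Dvd.intro _ rfl)
  rw [mul_assoc]
  exact h2

lemma Large.exists {P : ℕ → Prop} (h : Large P) : ∃ s, 0 < s ∧ P s := by
  obtain ⟨t, ht, h⟩ := h
  exact ⟨t, ht, h t ht dvd_rfl⟩

variable {𝓜 : Type u} [Category.{v} 𝓜] {K : Type} [Field K] [CharZero K]
  {T : FrobData.{v, u, w} 𝓜 K} [Preadditive 𝓜] [MonoidalCategory 𝓜]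

lemma tensor_ss (hT : T.Facts) (M N : 𝓜) (h : T.Semisimple M) (h' : T.Semisimple N) :
    T.Semisimple (M ⊗ N) := by
  obtain ⟨e, he⟩ := hT.coh.tensor M N
  refine ((Large.and h h').and he).mono ?_
  rintro s ⟨⟨h1, h2⟩, h3⟩
  have h4 := semisimple_tensor h1 h2
  refine semisimple_inj (e.symm : T.H (M ⊗ N) →ₗ[K] _) e.symm.injective ?_ h4
  intro x
  obtain ⟨y, rfl⟩ := e.surjective x
  have key : ∀ y, T.Fr (M ⊗ N) s (e y) = e (TensorProduct.map (T.Fr M s) (T.Fr N s) y) := by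
    intro y
    induction y with
    | zero => simp
    | tmul a b => rw [← h3]; simp
    | add a b ha hb => simp [ha, hb]
  rw [key]
  simp

lemma split_ss (hT : T.Facts) (M A A' : 𝓜) (i₁ : M ⟶ A) (r₁ : A ⟶ M) (i₂ : M ⟶ A') (r₂ : A' ⟶ M)
    (e : i₁ ≫ r₁ + i₂ ≫ r₂ = 𝟙 M) (h : T.Semisimple A) (h' : T.Semisimple A') :
    T.Semisimple M := by
  refine ((Large.and h h').and (Large.and (hT.coh.frob_map i₁) (hT.coh.frob_map i₂))).mono ?_
  rintro s ⟨⟨h1, h2⟩, h3, h4⟩
  refine semisimple_split (T.map i₁) (T.map r₁) (T.map i₂) (T.map r₂) (fun x => ?_) h3 h4 h1 h2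
  rw [← hT.coh.func.map_comp, ← hT.coh.func.map_comp, ← hT.coh.func.map_add, e, hT.coh.func.map_id]

lemma unit_ss (hT : T.Facts) : T.Semisimple (𝟙_ 𝓜) := by
  refine Large.mono hT.coh.unit fun s hs => ?_
  have : T.Fr (𝟙_ 𝓜) s = LinearMap.id := by ext x; simp [hs]
  rw [this]
  exact Module.End.isSemisimple_id

lemma p_ne (hT : T.Facts) (s : ℕ) : (T.p : K) ^ s ≠ 0 :=
  pow_ne_zero _ (by exact_mod_cast hT.coh.prime.ne_zero)

lemma lef_ss (hT : T.Facts) : T.Semisimple T.L := by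
  refine Large.mono hT.coh.lef fun s hs => ?_
  have : T.Fr T.L s = (T.p : K) ^ s • (LinearMap.id : T.H T.L →ₗ[K] T.H T.L) := by
    ext x; simp [hs]
  rw [this]
  exact Module.End.IsSemisimple_smul _ Module.End.isSemisimple_id

lemma untwist_ss (hT : T.Facts) (M : 𝓜) (h : T.Semisimple (M ⊗ T.L)) : T.Semisimple M := by
  obtain ⟨b, hb⟩ := hT.coh.lef_ne
  have hl := hT.coh.lef
  obtain ⟨e, he⟩ := hT.coh.tensor M T.L
  refine ((Large.and h hl).and he).mono ?_
  rintro s ⟨⟨h1, h2⟩, h3⟩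
  rw [← Module.End.IsSemisimple_smul_iff (p_ne hT s)]
  refine semisimple_inj ((e : _ →ₗ[K] T.H (M ⊗ T.L)) ∘ₗ (TensorProduct.mk K _ _).flip b) ?_ ?_ h1
  · intro x y hxy
    have h4 : x ⊗ₜ[K] b = y ⊗ₜ[K] b := e.injective (by simpa using hxy)
    obtain ⟨φ, hφ⟩ : ∃ φ : T.H T.L →ₗ[K] K, φ b ≠ 0 := by
      by_contra hc
      push Not at hc
      exact hb ((Module.forall_dual_apply_eq_zero_iff K b).1 hc)
    have h5 := congrArg (TensorProduct.rid K _ ∘ (LinearMap.lTensor (T.H M) φ)) h4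
    simp only [Function.comp_apply, LinearMap.lTensor_tmul, TensorProduct.rid_tmul] at h5
    exact smul_right_injective _ hφ h5
  · intro x
    have := h3 x b
    rw [h2] at this
    simp only [LinearMap.smul_apply, LinearMap.comp_apply, LinearMap.flip_apply,
      TensorProduct.mk_apply, LinearEquiv.coe_coe]
    rw [← this, TensorProduct.smul_tmul]

/-- motives generated by motives with semisimple Frobenius -/
lemma gen_ss (hT : T.Facts) {M : 𝓜} (h : GenBy T.L T.Semisimple M) : T.Semisimple M :=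
  JoinData.genBy_property (unit_ss hT) (lef_ss hT) (tensor_ss hT) (split_ss hT) (untwist_ss hT)
    (fun _ h => h) h

/-- sums of good forms -/
lemma good_sum (hT : T.Facts) {W : T.Hyp} (h : T.IsGoodSum W) :
    T.Smooth W ∧ T.Semisimple (T.prim W) := by
  obtain ⟨d, hd, h⟩ := h
  have hdiag : ∀ X, T.Diag X → T.deg X = d → X ∈ T.goodForms d := by
    intro X hX hdX
    obtain ⟨a, b⟩ := hT.core.diag_prop hX
    refine ⟨a, hdX, hT.small X a (by omega), fun X' hX' => ?_⟩
    obtain ⟨a', b', c'⟩ := hT.core.cyc_prop hX'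
    exact hT.small X' a' (by omega)
  have := JoinData.genBy_sum hT.core hd (B := T.goodForms d) (fun X hX => ⟨hX.1, hX.2.1⟩) hdiag
    (P := T.Semisimple) ?_ h
  · exact ⟨this.1.1, gen_ss hT this.2.1⟩
  · rintro X (hX | ⟨Y, hY, h⟩)
    · exact .of hX.2.2.1
    · exact .of (hY.2.2.2 X h)

/-- varieties with semisimple Frobenius -/
lemma var_ss (hT : T.Facts) (V : T.Var) (h : T.FrobeniusSemisimple V) : T.Semisimple (T.mot V) := by
  refine Large.of_mul (T.degree V) (hT.var.degree_pos V) ?_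
  refine Large.mono (hT.var.frob_pow V) fun s hs => ?_
  obtain ⟨n, hn⟩ := (hT.var.coh V).sum
  exact semisimple_sum (Finset.range n) (T.coh V) (fun r => T.F V r ^ s) _ (T.incl V) hs
    (fun r _ => (h r).pow s) hn

lemma ss_var (hT : T.Facts) (V : T.Var) (h : T.Semisimple (T.mot V)) : T.FrobeniusSemisimple V := by
  intro r
  obtain ⟨s, hs, h1, h2⟩ := ((Large.mul h (T.degree V) (hT.var.degree_pos V)).and
    (hT.var.frob_pow V)).exists
  exact semisimple_root ((hT.var.coh V).frob_inj r) hs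
    (semisimple_inj (T.incl V r) ((hT.var.coh V).inj r) (h2 r) h1)

/-- main theorem -/
theorem final (hT : T.Facts) (V : T.Var) (hV : T.Generated (T.mot V)) :
    T.FrobeniusSemisimple V := by
  refine ss_var hT V (gen_ss hT (hV.bind ?_))
  rintro N (⟨V', h, rfl⟩ | ⟨W, hW, rfl⟩)
  · exact .of (var_ss hT V' h)
  · obtain ⟨hs, h⟩ := good_sum hT hW
    refine (hT.hyp W hs).bind ?_
    rintro N rfl
    exact .of h

/-- sums of small forms are sums of good forms -/
theorem small_good (hT : T.Facts) {W : T.Hyp} (h : T.IsSmallSum W) : T.IsGoodSum W := by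
  obtain ⟨d, e, hd, he, h⟩ := h
  refine ⟨d, hd, ?_⟩
  have key : T.forms d e ⊆ T.goodForms d := by
    rintro X ⟨h1, h2, h3⟩
    refine ⟨h1, h2, hT.small X h1 (by omega), fun X' hX' => ?_⟩
    obtain ⟨a', b', c'⟩ := hT.core.cyc_prop hX'
    exact hT.small X' a' (by omega)
  induction h with
  | base hX =>
    refine .base ?_
    rcases hX with hX | ⟨Y, hY, h⟩
    · exact Or.inl (key hX)
    · exact Or.inr ⟨Y, key hY, h⟩
  | join _ _ h ih₁ ih₂ => exact .join ih₁ ih₂ h

end FrobData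

end Pool.Agent.Q226.SF
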